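import Pool.Agent.H380.CM.BLK
import Pool.Graph.R_seed8.H334R2.CM.S.ASMG
import Pool.Graph.R_seed8.H334R2.CM.S.CLIF
import Pool.Graph.R_seed8.H334R2.CM.S.CLIF2
import Pool.Graph.R_seed8.H334R2.CM.S.KPART
import Pool.Graph.R_seed8.H334R2.CM.S.ORB
import Pool.Graph.R_seed8.H334R2.CM.S.COMB
import Pool.Graph.R_seed8.H334R2.CM.S.CAR

/-! Project CM (completion): the group `H = 11^{3+3} : PSL(2,7)`. -/

set_option autoImplicit false
set_option linter.constructorNameAsVariable false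
open scoped Matrix MatrixGroups
universe u
namespace CM
namespace ASMH

section gen
variable {k : Type u} [Field k] {A : Type u} [Ring A] [Algebra k A]

lemma cor_zero [FiniteDimensional k A] {e e' F F' : A} (he : e ∈ cor k F F)
    (he' : e' ∈ cor k F' F') (h : Module.finrank k (cor k F F') = 0) :
    Module.finrank k (cor k e e') = 0 := by
  have hle : cor k e e' ≤ cor k F F' := by
    rintro x ⟨h1, h2⟩
    constructor
    · rw [← h1, ← mul_assoc, he.1]
    · rw [← h2, mul_assoc, he'.2]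
  exact Nat.le_zero.1 (h ▸ Submodule.finrank_mono hle)

/-- transport of a Cartan matrix along a bijection of the labels -/
lemma idemCartan_equiv {ι κ : Type} {C : Matrix ι ι ℕ} (e : κ ≃ ι) (h : IdemCartan k A C) :
    IdemCartan k A (C.submatrix e e) := by
  obtain ⟨ε, h1, h2, h3⟩ := h
  refine ⟨fun i => ε (e i), fun i => h1 _, fun i j => h2 _ _, fun M _ _ hM => ?_⟩
  obtain ⟨i, m, hm⟩ := h3 M hM
  exact ⟨e.symm i, m, by simpa using hm⟩

lemma Cm_submatrix {α β β' : Type} [DecidableEq α] [DecidableEq β] [DecidableEq β']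
    (e : β' ≃ β) :
    (Cm α β).submatrix (Equiv.sumCongr (Equiv.refl (Fin 3)) (Equiv.sumCongr (Equiv.refl α) e))
      (Equiv.sumCongr (Equiv.refl (Fin 3)) (Equiv.sumCongr (Equiv.refl α) e)) = Cm α β' := by
  ext i j
  rcases i with i | i | i <;> rcases j with j | j | j <;>
    simp [Cm, Matrix.submatrix]

end gen

/-- the labels of the blocks of defect zero -/
abbrev Bt := Fin 1 ⊕ (Fin 60 × Fin 3) ⊕ Fin 60

section main
variable {k : Type u} [Field k] [IsAlgClosed k] [CharP k 2]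

theorem main {K : Type} [Group K] [Finite K] (ρ : K →* SL(3, ZMod 11))
    (hK : IdemCartan k (MonoidAlgebra k K) (Cm (Fin 0) (Fin 1)))
    (D : OD (labAct.comp ρ) {x | x ≠ Sum.inl 0} (Fin 60)) :
    IdemCartan k (MonoidAlgebra k (NN ⋊[actN.comp ρ] K)) (Cm (Fin 60) Bt) := by
  have hfin : Finite (NN ⋊[actN.comp ρ] K) :=
    Finite.of_equiv _ (SemidirectProduct.equivProd (φ := actN.comp ρ)).symm
  obtain ⟨z, f, hB, hf0, hf1⟩ := BLK (k := k) ρ
  obtain ⟨ε, e1, e2, e3⟩ := hK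
  have hfix : ∀ g, (labAct.comp ρ) g (Sum.inl 0) = Sum.inl 0 := by
    intro g
    rw [COMB.lab_inl_iff]
    change dualAct (ρ g) 0 = 0
    rw [dualAct_apply, Matrix.mulVec_zero]
  obtain ⟨k1, k2, k3, k4⟩ := KPART hB (Sum.inl 0) hf0 hf1 hfix
  have hone := fun a => CLIF_one hB (D.r1 a) (D.s1 a)
  have hfour : ∀ a, IsLoc k (inN (actN.comp ρ) (f (D.r4 a))) ∧
      Module.finrank k (cor k (inN (actN.comp ρ) (f (D.r4 a)))
        (inN (actN.comp ρ) (f (D.r4 a)))) = 4 := by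
    intro a
    obtain ⟨u, hu, hl⟩ := D.s4 a
    exact CLIF_four hB (D.r4 a) u hu hl
  have hthree : ∀ a, ∃ e : Fin 3 → MonoidAlgebra k (NN ⋊[actN.comp ρ] K), (∀ i, IsLoc k (e i)) ∧
      (∀ i j, Module.finrank k (cor k (e i) (e j)) = if i = j then 1 else 0) ∧
      (∀ i, e i ∈ cor k (inN (actN.comp ρ) (f (D.r3 a))) (inN (actN.comp ρ) (f (D.r3 a)))) ∧
      ∑ i, e i = inN (actN.comp ρ) (f (D.r3 a)) := by
    intro a
    obtain ⟨u, hu, hl⟩ := D.s3 a
    exact CLIF_three hB (D.r3 a) u hu hl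
  choose t t1 t2 t3 t4 using hthree
  have hid : ∀ l, inN (actN.comp ρ) (f l) ∈ cor k (inN (actN.comp ρ) (f l))
      (inN (actN.comp ρ) (f l)) := by
    intro l
    have : inN (actN.comp ρ) (f l) * inN (actN.comp ρ) (f l) = inN (actN.comp ρ) (f l) := by
      rw [← CLIF.inN_mul, hB.hf]
    exact ⟨this, this⟩
  have horth : ∀ l l', (∀ g, (labAct.comp ρ) g l ≠ l') →
      ∀ e ∈ cor k (inN (actN.comp ρ) (f l)) (inN (actN.comp ρ) (f l)),
      ∀ e' ∈ cor k (inN (actN.comp ρ) (f l')) (inN (actN.comp ρ) (f l')),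
      Module.finrank k (cor k e e') = 0 := by
    intro l l' hl e he e' he'
    exact cor_zero he he' (CLIF_orth hB l l' hl)
  -- symmetric forms of the disjointness statements
  have hinv : ∀ {l l' : Lab}, (∀ g, (labAct.comp ρ) g l ≠ l') → ∀ g, (labAct.comp ρ) g l' ≠ l := by
    intro l l' h g hg
    apply h g⁻¹
    rw [← hg, ← Equiv.Perm.mul_apply, ← map_mul, inv_mul_cancel, map_one, Equiv.Perm.one_apply]
  have n0 : ∀ {l : Lab}, l ≠ Sum.inl 0 → ∀ g, (labAct.comp ρ) g (Sum.inl 0) ≠ l := by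
    intro l h g hg
    rw [hfix] at hg
    exact h hg.symm
  let E : Fin 3 ⊕ Fin 60 ⊕ Bt → MonoidAlgebra k (NN ⋊[actN.comp ρ] K) := fun i =>
    match i with
    | .inl i => inN (actN.comp ρ) (f (Sum.inl 0)) * inK (actN.comp ρ) (ε (.inl i))
    | .inr (.inl a) => inN (actN.comp ρ) (f (D.r4 a))
    | .inr (.inr (.inl i)) =>
      inN (actN.comp ρ) (f (Sum.inl 0)) * inK (actN.comp ρ) (ε (.inr (.inr i)))
    | .inr (.inr (.inr (.inl (a, j)))) => t a j
    | .inr (.inr (.inr (.inr a))) => inN (actN.comp ρ) (f (D.r1 a))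
  refine ⟨E, ?_, ?_, ?_⟩
  · rintro (i | a | i | ⟨a, j⟩ | a)
    · exact k1 _ (e1 _)
    · exact (hfour a).1
    · exact k1 _ (e1 _)
    · exact t1 a j
    · exact (hone a).1
  · rintro (i | a | i | ⟨a, j⟩ | a) (i' | a' | i' | ⟨a', j'⟩ | a')
    -- row 1
    · change Module.finrank k (cor k (_ * _) (_ * _)) = C3 i i'
      rw [k2 _ _ (e1 _).2.1 (e1 _).2.1, e2]
      rfl
    · exact horth _ _ (hinv (n0 (D.m4 a'))) _ (hid _) _ (k3 _)
    · change Module.finrank k (cor k (_ * _) (_ * _)) = 0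
      rw [k2 _ _ (e1 _).2.1 (e1 _).2.1, e2]
      rfl
    · exact horth _ _ (hinv (n0 (D.m3 a'))) _ (t3 _ _) _ (k3 _)
    · exact horth _ _ (hinv (n0 (D.m1 a'))) _ (hid _) _ (k3 _)
    -- row 2
    · exact horth _ _ (n0 (D.m4 a)) _ (k3 _) _ (hid _)
    · by_cases h : a = a'
      · subst h
        exact (hfour a).2.trans (by simp [Cm])
      · refine (horth _ _ (fun g hg => h (D.d44 _ _ g hg).symm) _ (hid _) _ (hid _)).trans ?_
        simp [Cm, h]
    · exact horth _ _ (n0 (D.m4 a)) _ (k3 _) _ (hid _)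
    · exact horth _ _ (hinv (D.d43 _ _)) _ (t3 _ _) _ (hid _)
    · exact horth _ _ (hinv (D.d41 _ _)) _ (hid _) _ (hid _)
    -- row 3
    · change Module.finrank k (cor k (_ * _) (_ * _)) = 0
      rw [k2 _ _ (e1 _).2.1 (e1 _).2.1, e2]
      rfl
    · exact horth _ _ (hinv (n0 (D.m4 a'))) _ (hid _) _ (k3 _)
    · change Module.finrank k (cor k (_ * _) (_ * _)) = _
      rw [k2 _ _ (e1 _).2.1 (e1 _).2.1, e2]
      simp [Cm]
    · exact horth _ _ (hinv (n0 (D.m3 a'))) _ (t3 _ _) _ (k3 _)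
    · exact horth _ _ (hinv (n0 (D.m1 a'))) _ (hid _) _ (k3 _)
    -- row 4
    · exact horth _ _ (n0 (D.m3 a)) _ (k3 _) _ (t3 _ _)
    · exact horth _ _ (D.d43 _ _) _ (hid _) _ (t3 _ _)
    · exact horth _ _ (n0 (D.m3 a)) _ (k3 _) _ (t3 _ _)
    · by_cases h : a = a'
      · subst h
        refine (t2 a j' j).trans ?_
        simp [Cm, eq_comm]
      · refine (horth _ _ (fun g hg => h (D.d33 _ _ g hg).symm) _ (t3 _ _) _ (t3 _ _)).trans ?_
        simp [Cm, h]
    · exact horth _ _ (hinv (D.d31 _ _)) _ (hid _) _ (t3 _ _)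
    -- row 5
    · exact horth _ _ (n0 (D.m1 a)) _ (k3 _) _ (hid _)
    · exact horth _ _ (D.d41 _ _) _ (hid _) _ (hid _)
    · exact horth _ _ (n0 (D.m1 a)) _ (k3 _) _ (hid _)
    · exact horth _ _ (D.d31 _ _) _ (t3 _ _) _ (hid _)
    · by_cases h : a = a'
      · subst h
        exact (hone a).2.trans (by simp [Cm])
      · refine (horth _ _ (fun g hg => h (D.d11 _ _ g hg).symm) _ (hid _) _ (hid _)).trans ?_
        simp [Cm, h]
  · intro M _ _ hM
    obtain ⟨l, hl, m, hm⟩ := CLIF_full hB M hM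
      ({Sum.inl 0} ∪ Set.range D.r4 ∪ Set.range D.r3 ∪ Set.range D.r1) (by
        intro l
        by_cases h : l = Sum.inl 0
        · exact ⟨1, Or.inl (Or.inl (Or.inl (by rw [map_one, Equiv.Perm.one_apply, h]; rfl)))⟩
        · obtain ⟨g, i, h1 | h1 | h1⟩ := D.cover l h
          · refine ⟨g⁻¹, Or.inl (Or.inl (Or.inr ⟨i, ?_⟩))⟩
            rw [← h1, ← Equiv.Perm.mul_apply, ← map_mul, inv_mul_cancel, map_one,
              Equiv.Perm.one_apply]
          · refine ⟨g⁻¹, Or.inl (Or.inr ⟨i, ?_⟩)⟩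
            rw [← h1, ← Equiv.Perm.mul_apply, ← map_mul, inv_mul_cancel, map_one,
              Equiv.Perm.one_apply]
          · refine ⟨g⁻¹, Or.inr ⟨i, ?_⟩⟩
            rw [← h1, ← Equiv.Perm.mul_apply, ← map_mul, inv_mul_cancel, map_one,
              Equiv.Perm.one_apply])
    rcases hl with ((hl | ⟨a, rfl⟩) | ⟨a, rfl⟩) | ⟨a, rfl⟩
    · have hl' : l = Sum.inl 0 := hl
      subst hl'
      obtain ⟨i, m', hm'⟩ := k4 _ ε e3 M hM ⟨m, hm⟩
      rcases i with i | i | i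
      · exact ⟨.inl i, m', hm'⟩
      · exact i.elim0
      · exact ⟨.inr (.inr (.inl i)), m', hm'⟩
    · exact ⟨.inr (.inl a), m, hm⟩
    · rw [← t4 a, Finset.sum_smul] at hm
      obtain ⟨j, -, hj⟩ := Finset.exists_ne_zero_of_sum_ne_zero hm
      exact ⟨.inr (.inr (.inr (.inl (a, j)))), m, hj⟩
    · exact ⟨.inr (.inr (.inr (.inr a))), m, hm⟩

end main

end ASMH
end CM
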