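import Pool.Graph.R_seed8.H334R2.CM.Defs

/-! Project CM (completion): the blocks of `k N`, `N = 11^{3+3}`. -/

set_option autoImplicit false
set_option linter.constructorNameAsVariable false
open scoped Matrix MatrixGroups
universe u
namespace CM
namespace BLK

section vec
/-- Plücker relation -/
lemma plucker (c u v0 v v' : V3) (h : c ⬝ᵥ (v0 ⨯₃ u) = 1) (hv : c ⬝ᵥ (v ⨯₃ u) = 0)
    (hv' : c ⬝ᵥ (v' ⨯₃ u) = 0) : c ⬝ᵥ (v ⨯₃ v') = 0 := by
  have key : (c ⬝ᵥ (v ⨯₃ v')) * (c ⬝ᵥ (v0 ⨯₃ u)) =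
      (c ⬝ᵥ (v ⨯₃ u)) * (c ⬝ᵥ (v0 ⨯₃ v')) - (c ⬝ᵥ (v' ⨯₃ u)) * (c ⬝ᵥ (v0 ⨯₃ v)) := by
    simp [cross_apply, dotProduct, Fin.sum_univ_three]
    ring
  rw [h, hv, hv', mul_one, zero_mul, zero_mul, sub_zero] at key
  exact key

lemma exists_frame (c : V3) (hc : c ≠ 0) : ∃ p : V3 × V3, c ⬝ᵥ (p.2 ⨯₃ p.1) = 1 := by
  have h3 : c 0 ≠ 0 ∨ c 1 ≠ 0 ∨ c 2 ≠ 0 := by
    by_contra hcon
    push Not at hcon
    apply hc
    ext i
    fin_cases i
    · exact hcon.1
    · exact hcon.2.1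
    · exact hcon.2.2
  have h11 : Fact (Nat.Prime 11) := ⟨by norm_num⟩
  rcases h3 with h | h | h
  · refine ⟨(![0, 0, 1], ![0, (c 0)⁻¹, 0]), ?_⟩
    simp [cross_apply, dotProduct, Fin.sum_univ_three, h]
  · refine ⟨(![1, 0, 0], ![0, 0, (c 1)⁻¹]), ?_⟩
    simp [cross_apply, dotProduct, Fin.sum_univ_three, h]
  · refine ⟨(![0, 1, 0], ![(c 2)⁻¹, 0, 0]), ?_⟩
    simp [cross_apply, dotProduct, Fin.sum_univ_three, h]

/-- `v` is parallel to `c` iff both `c·(v×u)` and `c·(v0×v)` vanish -/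
lemma par_iff (c u v0 v : V3) (h : c ⬝ᵥ (v0 ⨯₃ u) = 1) :
    v ⨯₃ c = 0 ↔ c ⬝ᵥ (v ⨯₃ u) = 0 ∧ c ⬝ᵥ (v0 ⨯₃ v) = 0 := by
  constructor
  · intro hv
    have h0 := congrFun hv 0
    have h1 := congrFun hv 1
    have h2 := congrFun hv 2
    simp [cross_apply] at h0 h1 h2
    constructor
    · simp [cross_apply, dotProduct, Fin.sum_univ_three]
      linear_combination (-u 0) * h0 + (-u 1) * h1 + (-u 2) * h2
    · simp [cross_apply, dotProduct, Fin.sum_univ_three]
      linear_combination (v0 0) * h0 + (v0 1) * h1 + (v0 2) * h2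
  · rintro ⟨h1, h2⟩
    have key : (c ⬝ᵥ (v0 ⨯₃ u)) • (v ⨯₃ c) =
      (c ⬝ᵥ (v0 ⨯₃ v)) • (u ⨯₃ c) - (c ⬝ᵥ (v ⨯₃ u)) • (c ⨯₃ v0) := by
      ext i
      fin_cases i <;>
        simp [cross_apply, dotProduct, Fin.sum_univ_three] <;> ring
    rw [h, h1, h2, one_smul, zero_smul, zero_smul, sub_zero] at key
    exact key

/-- vectors parallel to `c` are multiples of `c` -/
lemma par_eq (c u v0 v : V3) (h : c ⬝ᵥ (v0 ⨯₃ u) = 1) (hv : v ⨯₃ c = 0) :
    v = ((v0 ⨯₃ u) ⬝ᵥ v) • c := by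
  have h0 := congrFun hv 0
  have h1 := congrFun hv 1
  have h2 := congrFun hv 2
  simp [cross_apply] at h0 h1 h2
  have h' := h
  simp [cross_apply, dotProduct, Fin.sum_univ_three] at h'
  have e0 : v 0 = ((v0 ⨯₃ u) ⬝ᵥ v) * c 0 := by
    simp [cross_apply, dotProduct, Fin.sum_univ_three]
    linear_combination (-(v 0)) * h' + (v0 2 * u 0 - v0 0 * u 2) * h2 +
      (-(v0 0 * u 1 - v0 1 * u 0)) * h1
  have e1 : v 1 = ((v0 ⨯₃ u) ⬝ᵥ v) * c 1 := by
    simp [cross_apply, dotProduct, Fin.sum_univ_three]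
    linear_combination (-(v 1)) * h' + (-(v0 1 * u 2 - v0 2 * u 1)) * h2 +
      (v0 0 * u 1 - v0 1 * u 0) * h0
  have e2 : v 2 = ((v0 ⨯₃ u) ⬝ᵥ v) * c 2 := by
    simp [cross_apply, dotProduct, Fin.sum_univ_three]
    linear_combination (-(v 2)) * h' + (v0 1 * u 2 - v0 2 * u 1) * h1 +
      (-(v0 2 * u 0 - v0 0 * u 2)) * h0
  ext i
  fin_cases i
  · exact e0
  · exact e1
  · exact e2

lemma std_dual_dot (g : SL(3, ZMod 11)) (c w : V3) : stdAct g c ⬝ᵥ dualAct g w = c ⬝ᵥ w := by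
  rw [stdAct_apply, dualAct_apply, Matrix.dotProduct_mulVec, Matrix.vecMul_transpose,
    Matrix.mulVec_mulVec, ← Matrix.SpecialLinearGroup.coe_mul, inv_mul_cancel,
    Matrix.SpecialLinearGroup.coe_one, Matrix.one_mulVec]

end vec

/-- the subgroup of elements with first coordinate in `W` -/
def Sb (W : AddSubgroup V3) : Subgroup NN where
  carrier := {x | x.v ∈ W}
  mul_mem' := by
    intro x y hx hy
    exact W.add_mem hx hy
  one_mem' := W.zero_mem
  inv_mem' := by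
    intro x hx
    exact W.neg_mem hx

lemma mem_Sb {W : AddSubgroup V3} {x : NN} : x ∈ Sb W ↔ x.v ∈ W := Iff.rfl

/-- multiples of `c` -/
def Wc (c : V3) : AddSubgroup V3 where
  carrier := {v | v ⨯₃ c = 0}
  add_mem' := by
    intro x y hx hy
    simp only [Set.mem_ofPred_eq] at *
    rw [map_add, LinearMap.add_apply, hx, hy, add_zero]
  zero_mem' := by simp
  neg_mem' := by
    intro x hx
    simp only [Set.mem_ofPred_eq] at *
    rw [map_neg, LinearMap.neg_apply, hx, neg_zero]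

/-- the plane spanned by `c` and `u` -/
def Wu (c u : V3) : AddSubgroup V3 where
  carrier := {v | c ⬝ᵥ (v ⨯₃ u) = 0}
  add_mem' := by
    intro x y hx hy
    simp only [Set.mem_ofPred_eq] at *
    rw [map_add, LinearMap.add_apply, dotProduct_add, hx, hy, add_zero]
  zero_mem' := by simp
  neg_mem' := by
    intro x hx
    simp only [Set.mem_ofPred_eq] at *
    rw [map_neg, LinearMap.neg_apply, dotProduct_neg, hx, neg_zero]

lemma mem_Wc {c v : V3} : v ∈ Wc c ↔ v ⨯₃ c = 0 := Iff.rfl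
lemma mem_Wu {c u v : V3} : v ∈ Wu c u ↔ c ⬝ᵥ (v ⨯₃ u) = 0 := Iff.rfl

section alg
variable {k : Type u} [Field k] (ψ : AddChar (ZMod 11) k)

/-- the value at `x⁻¹` of the linear character `(c,q)` -/
noncomputable def gch (c q : V3) (x : NN) : k := ψ (-(c ⬝ᵥ x.w + q ⬝ᵥ x.v))

open Classical in
/-- the idempotent of the subgroup `H` for the linear character `(c,q)` -/
noncomputable def EE (H : Subgroup NN) (c q : V3) : MonoidAlgebra k NN :=
  ∑ x ∈ Finset.univ.filter (· ∈ H), MonoidAlgebra.single x (gch ψ c q x)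

/-- `(c,q)` is a character on `H` -/
def IsCh (H : Subgroup NN) (c : V3) : Prop := ∀ x ∈ H, ∀ y ∈ H, c ⬝ᵥ (x.v ⨯₃ y.v) = 0

variable {ψ}

lemma EE_left {H : Subgroup NN} {c q : V3} (hH : IsCh H c) {h : NN} (hh : h ∈ H) :
    MonoidAlgebra.single h (1 : k) * EE ψ H c q = ψ (c ⬝ᵥ h.w + q ⬝ᵥ h.v) • EE ψ H c q := by
  classical
  rw [EE, Finset.mul_sum, Finset.smul_sum]
  refine Finset.sum_equiv (Equiv.mulLeft h) ?_ ?_
  · intro x
    simp [H.mul_mem_cancel_left hh]
  · intro x hx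
    rw [Finset.mem_filter] at hx
    rw [MonoidAlgebra.single_mul_single, one_mul, Equiv.coe_mulLeft, MonoidAlgebra.smul_single,
      smul_eq_mul, gch, gch, ← AddChar.map_add_eq_mul]
    congr 2
    simp only [NN.mul_w, NN.mul_v, dotProduct_add]
    rw [hH h hh x hx.2]
    ring

lemma EE_right {H : Subgroup NN} {c q : V3} (hH : IsCh H c) {h : NN} (hh : h ∈ H) :
    EE ψ H c q * MonoidAlgebra.single h (1 : k) = ψ (c ⬝ᵥ h.w + q ⬝ᵥ h.v) • EE ψ H c q := by
  classical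
  rw [EE, Finset.sum_mul, Finset.smul_sum]
  refine Finset.sum_equiv (Equiv.mulRight h) ?_ ?_
  · intro x
    simp [H.mul_mem_cancel_right hh]
  · intro x hx
    rw [Finset.mem_filter] at hx
    rw [MonoidAlgebra.single_mul_single, mul_one, Equiv.coe_mulRight, MonoidAlgebra.smul_single,
      smul_eq_mul, gch, gch, ← AddChar.map_add_eq_mul]
    congr 2
    simp only [NN.mul_w, NN.mul_v, dotProduct_add]
    rw [hH x hx.2 h hh]
    ring

lemma EE_mul_zero {H H' : Subgroup NN} {c q c' q' : V3} (hH : IsCh H c) (hH' : IsCh H' c')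
    {h : NN} (hh : h ∈ H) (hh' : h ∈ H')
    (hne : ψ (c ⬝ᵥ h.w + q ⬝ᵥ h.v) ≠ ψ (c' ⬝ᵥ h.w + q' ⬝ᵥ h.v)) :
    EE ψ H c q * EE ψ H' c' q' = 0 := by
  have h1 : EE ψ H c q * MonoidAlgebra.single h (1 : k) * EE ψ H' c' q' =
      ψ (c ⬝ᵥ h.w + q ⬝ᵥ h.v) • (EE ψ H c q * EE ψ H' c' q') := by
    rw [EE_right hH hh, smul_mul_assoc]
  have h2 : EE ψ H c q * MonoidAlgebra.single h (1 : k) * EE ψ H' c' q' =
      ψ (c' ⬝ᵥ h.w + q' ⬝ᵥ h.v) • (EE ψ H c q * EE ψ H' c' q') := by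
    rw [mul_assoc, EE_left hH' hh', mul_smul_comm]
  rw [h1] at h2
  rw [← sub_eq_zero, ← sub_smul, smul_eq_zero] at h2
  exact h2.resolve_left (sub_ne_zero.2 hne)

lemma odd_cast [CharP k 2] {n : ℕ} (hn : Odd n) : (n : k) = 1 := by
  obtain ⟨m, hm⟩ := hn
  rw [hm, Nat.cast_add, Nat.cast_mul, Nat.cast_ofNat, CharTwo.two_eq_zero, zero_mul, zero_add,
    Nat.cast_one]

lemma card_NN : Nat.card NN = 11 ^ 6 := by
  rw [Nat.card_congr NN.equivProd, Nat.card_prod, Nat.card_eq_fintype_card, Fintype.card_fun,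
    ZMod.card, Fintype.card_fin]
  norm_num

open Classical in
lemma card_cast [CharP k 2] (H : Subgroup NN) :
    (((Finset.univ.filter (· ∈ H)).card : ℕ) : k) = 1 := by
  have h1 : (Finset.univ.filter (· ∈ H)).card = Nat.card H := by
    rw [Nat.card_eq_fintype_card, Fintype.card_subtype]
  have h2 : Odd (Nat.card H) := by
    have := Subgroup.card_subgroup_dvd_card H
    rw [card_NN] at this
    exact Odd.of_dvd_nat (by decide) this
  rw [h1, odd_cast h2]

lemma EE_absorb [CharP k 2] {H H' : Subgroup NN} (hle : H ≤ H') {c q : V3} (hH : IsCh H' c) :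
    EE ψ H c q * EE ψ H' c q = EE ψ H' c q := by
  classical
  rw [EE, Finset.sum_mul]
  have : ∀ x ∈ Finset.univ.filter (· ∈ H), MonoidAlgebra.single x (gch ψ c q x) * EE ψ H' c q =
      EE ψ H' c q := by
    intro x hx
    rw [Finset.mem_filter] at hx
    have h1 : (MonoidAlgebra.single x (gch ψ c q x) : MonoidAlgebra k NN) =
        gch ψ c q x • MonoidAlgebra.single x (1 : k) := by
      rw [MonoidAlgebra.smul_single, smul_eq_mul, mul_one]
    rw [h1, smul_mul_assoc, EE_left hH (hle hx.2), smul_smul, gch, ← AddChar.map_add_eq_mul,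
      neg_add_cancel, AddChar.map_zero_eq_one, one_smul]
  rw [Finset.sum_congr rfl this, Finset.sum_const, ← Nat.cast_smul_eq_nsmul k, card_cast, one_smul]

lemma EE_coeff_one (H : Subgroup NN) (c q : V3) : (EE ψ H c q).coeff 1 = 1 := by
  classical
  rw [EE]
  simp only [MonoidAlgebra.coeff_sum, MonoidAlgebra.coeff_single, Finsupp.finsetSum_apply,
    Finsupp.single_apply]
  rw [Finset.sum_ite_eq', if_pos (by simp [H.one_mem])]
  simp [gch]

lemma EE_ne_zero (H : Subgroup NN) (c q : V3) : EE ψ H c q ≠ 0 := by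
  intro h
  have := EE_coeff_one (ψ := ψ) H c q
  rw [h] at this
  simp at this

lemma conj_v (n x : NN) : (n * x * n⁻¹).v = x.v := by
  simp

lemma conj_w (n x : NN) : (n * x * n⁻¹).w = x.w + (2 : ZMod 11) • (n.v ⨯₃ x.v) := by
  simp only [NN.mul_w, NN.mul_v, NN.inv_v, NN.inv_w, map_add, map_neg, LinearMap.add_apply,
    cross_self, zero_add]
  rw [← cross_anticomm x.v n.v, two_smul]
  abel

lemma EE_conj (W : AddSubgroup V3) (c q : V3) (n : NN) :
    MonoidAlgebra.single n (1 : k) * EE ψ (Sb W) c q * MonoidAlgebra.single n⁻¹ (1 : k) =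
      open Classical in ∑ y ∈ Finset.univ.filter (· ∈ Sb W),
        MonoidAlgebra.single y (gch ψ c q y * ψ (2 * (c ⬝ᵥ (n.v ⨯₃ y.v)))) := by
  classical
  rw [EE, Finset.mul_sum, Finset.sum_mul]
  refine Finset.sum_equiv (MulAut.conj n).toEquiv ?_ ?_
  · intro x
    have hx' : (MulAut.conj n).toEquiv x = n * x * n⁻¹ := rfl
    rw [hx']
    simp only [Finset.mem_filter, Finset.mem_univ, true_and, mem_Sb]
    rw [conj_v]
  · intro x hx
    have hx' : (MulAut.conj n).toEquiv x = n * x * n⁻¹ := rfl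
    rw [hx']
    have e1 : MonoidAlgebra.single n (1 : k) * MonoidAlgebra.single x (gch ψ c q x) *
        MonoidAlgebra.single n⁻¹ (1 : k) = MonoidAlgebra.single (n * x * n⁻¹) (gch ψ c q x) := by
      simp only [MonoidAlgebra.single_mul_single, one_mul, mul_one]
    have e2 : gch ψ c q x = gch ψ c q (n * x * n⁻¹) *
        ψ (2 * (c ⬝ᵥ (n.v ⨯₃ (n * x * n⁻¹).v))) := by
      rewrite [gch, gch, conj_v, conj_w, ← AddChar.map_add_eq_mul]
      have e3 : -(c ⬝ᵥ x.w + q ⬝ᵥ x.v) =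
          -(c ⬝ᵥ (x.w + (2 : ZMod 11) • (n.v ⨯₃ x.v)) + q ⬝ᵥ x.v) +
            2 * (c ⬝ᵥ (n.v ⨯₃ x.v)) := by
        rewrite [dotProduct_add, dotProduct_smul, smul_eq_mul]
        ring
      exact congrArg ψ e3
    rw [e1, ← e2]

lemma EE_central (W : AddSubgroup V3) (c q : V3) (hW : ∀ v ∈ W, ∀ v', c ⬝ᵥ (v' ⨯₃ v) = 0)
    (x : MonoidAlgebra k NN) : EE ψ (Sb W) c q * x = x * EE ψ (Sb W) c q := by
  classical
  have key : ∀ n : NN, MonoidAlgebra.single n (1 : k) * EE ψ (Sb W) c q =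
      EE ψ (Sb W) c q * MonoidAlgebra.single n (1 : k) := by
    intro n
    have h1 := EE_conj (ψ := ψ) W c q n
    have h2 : (∑ y ∈ Finset.univ.filter (· ∈ Sb W),
        MonoidAlgebra.single y (gch ψ c q y * ψ (2 * (c ⬝ᵥ (n.v ⨯₃ y.v)))) : MonoidAlgebra k NN) =
        EE ψ (Sb W) c q := by
      rw [EE]
      refine Finset.sum_congr rfl fun y hy => ?_
      rw [Finset.mem_filter] at hy
      rw [hW _ hy.2, mul_zero, AddChar.map_zero_eq_one, mul_one]
    rw [h2] at h1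
    conv_rhs => rw [← h1]
    rw [mul_assoc, MonoidAlgebra.single_mul_single, inv_mul_cancel, mul_one,
      ← MonoidAlgebra.one_def, mul_one]
  induction x using MonoidAlgebra.induction_linear with
  | zero => simp
  | add x y hx hy => rw [mul_add, add_mul, hx, hy]
  | single n r =>
    have h1 : (MonoidAlgebra.single n r : MonoidAlgebra k NN) =
        r • MonoidAlgebra.single n (1 : k) := by
      rw [MonoidAlgebra.smul_single, smul_eq_mul, mul_one]
    rw [h1, mul_smul_comm, smul_mul_assoc, key]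

lemma EE_act (g : SL(3, ZMod 11)) (W W' : AddSubgroup V3) (c q q' : V3)
    (hW : ∀ v, stdAct g v ∈ W' ↔ v ∈ W)
    (hq : ∀ v ∈ W, q' ⬝ᵥ stdAct g v = q ⬝ᵥ v) :
    MonoidAlgebra.mapDomain (actN g) (EE ψ (Sb W) c q) = EE ψ (Sb W') (stdAct g c) q' := by
  classical
  have h0 : MonoidAlgebra.mapDomain (actN g) (EE ψ (Sb W) c q) =
      ∑ x ∈ Finset.univ.filter (· ∈ Sb W), MonoidAlgebra.single (actN g x) (gch ψ c q x) := by
    rw [EE]
    have := map_sum (MonoidAlgebra.mapDomainAlgHom k k ((actN g : NN ≃* NN) : NN →* NN))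
      (fun x => MonoidAlgebra.single x (gch ψ c q x)) (Finset.univ.filter (· ∈ Sb W))
    refine this.trans (Finset.sum_congr rfl fun x _ => ?_)
    exact MonoidAlgebra.mapDomain_single ..
  rw [h0, EE]
  refine Finset.sum_equiv (actN g).toEquiv ?_ ?_
  · intro x
    simp only [Finset.mem_filter, Finset.mem_univ, true_and, mem_Sb]
    exact (hW x.v).symm
  · intro x hx
    rw [Finset.mem_filter] at hx
    change MonoidAlgebra.single (actN g x) _ = MonoidAlgebra.single (actN g x) _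
    congr 1
    rw [gch, gch]
    congr 2
    change _ = stdAct g c ⬝ᵥ dualAct g x.w + q' ⬝ᵥ stdAct g x.v
    rw [std_dual_dot, hq _ hx.2]

open Classical in
lemma EE_coeff (H : Subgroup NN) (c q : V3) (x : NN) :
    (EE ψ H c q).coeff x = if x ∈ H then gch ψ c q x else 0 := by
  rw [EE]
  simp only [MonoidAlgebra.coeff_sum, MonoidAlgebra.coeff_single, Finsupp.finsetSum_apply,
    Finsupp.single_apply]
  rw [Finset.sum_ite_eq']
  simp

section prim
variable (hψ : ψ.IsPrimitive)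
include hψ

lemma psi_one_iff (a : ZMod 11) : ψ a = 1 ↔ a = 0 := hψ.zmod_char_eq_one_iff 11 a

lemma psi_inj {a b : ZMod 11} (h : ψ a = ψ b) : a = b := by
  have h1 : ψ (a - b) = 1 := by
    rw [AddChar.map_sub_eq_div, h, div_self]
    intro h0
    have h2 : ψ b * ψ (-b) = 1 := by
      rw [← AddChar.map_add_eq_mul, add_neg_cancel, AddChar.map_zero_eq_one]
    rw [h0, zero_mul] at h2
    exact zero_ne_one h2
  exact sub_eq_zero.1 ((psi_one_iff hψ _).1 h1)

lemma sum_line [CharP k 2] (t : ZMod 11) :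
    ∑ d : ZMod 11, ψ (d * t) = if t = 0 then 1 else 0 := by
  rw [AddChar.sum_mulShift t hψ, ZMod.card]
  split_ifs
  · exact odd_cast (by decide)
  · simp

lemma sum_dual [CharP k 2] (v : V3) :
    ∑ p : V3, ψ (-(p ⬝ᵥ v)) = if v = 0 then 1 else 0 := by
  split_ifs with h
  · subst h
    simp only [dotProduct_zero, neg_zero, AddChar.map_zero_eq_one, Finset.sum_const,
      Finset.card_univ, nsmul_eq_mul, mul_one]
    rw [Fintype.card_fun, ZMod.card, Fintype.card_fin]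
    exact odd_cast (by decide)
  · obtain ⟨i, hi⟩ : ∃ i, v i ≠ 0 := by
      by_contra hcon
      push Not at hcon
      exact h (funext hcon)
    have h1 : ∑ p : V3, ψ (-(p ⬝ᵥ v)) = ψ (-(v i)) * ∑ p : V3, ψ (-(p ⬝ᵥ v)) := by
      rw [Finset.mul_sum]
      refine (Finset.sum_equiv (Equiv.addRight (Pi.single i (1 : ZMod 11) : V3)) (by simp) ?_).symm
      intro p _
      rw [← AddChar.map_add_eq_mul]
      refine congrArg ψ ?_
      simp only [Equiv.coe_addRight, add_dotProduct, single_dotProduct, one_mul]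
      ring
    have h2 : (1 - ψ (-(v i))) * ∑ p : V3, ψ (-(p ⬝ᵥ v)) = 0 := by
      rw [sub_mul, one_mul, ← h1, sub_self]
    rcases mul_eq_zero.1 h2 with h3 | h3
    · exfalso
      apply hi
      have := (psi_one_iff hψ _).1 (sub_eq_zero.1 h3).symm
      simpa using this
    · exact h3

end prim

/-- the complement used for the plane -/
noncomputable def uu (c : {c : V3 // c ≠ 0}) : V3 := (exists_frame c.1 c.2).choose.1
/-- the transversal direction -/
noncomputable def vv (c : {c : V3 // c ≠ 0}) : V3 := (exists_frame c.1 c.2).choose.2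

lemma frame (c : {c : V3 // c ≠ 0}) : c.1 ⬝ᵥ (vv c ⨯₃ uu c) = 1 :=
  (exists_frame c.1 c.2).choose_spec

/-- a functional with value `1` at `c` -/
noncomputable def qq (c : {c : V3 // c ≠ 0}) : V3 := vv c ⨯₃ uu c

lemma qq_dot (c : {c : V3 // c ≠ 0}) : qq c ⬝ᵥ c.1 = 1 := by
  rw [dotProduct_comm]; exact frame c

lemma par_eq' (c : {c : V3 // c ≠ 0}) (v : V3) (hv : v ∈ Wc c.1) : v = (qq c ⬝ᵥ v) • c.1 :=
  par_eq c.1 (uu c) (vv c) v (frame c) hv

variable (ψ) in
/-- the central idempotents -/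
noncomputable def zz : Lab → MonoidAlgebra k NN
  | Sum.inl p => EE ψ (Sb ⊤) 0 p
  | Sum.inr (c, d) => EE ψ (Sb (Wc c.1)) c.1 (d • qq c)

variable (ψ) in
/-- the primitive idempotents -/
noncomputable def ff : Lab → MonoidAlgebra k NN
  | Sum.inl p => EE ψ (Sb ⊤) 0 p
  | Sum.inr (c, d) => EE ψ (Sb (Wu c.1 (uu c))) c.1 (d • qq c)

lemma isCh_top : IsCh (Sb ⊤) 0 := by
  intro x _ y _
  exact zero_dotProduct _

lemma cross_Wc {c : V3} {v : V3} (hv : v ∈ Wc c) (v' : V3) : c ⬝ᵥ (v' ⨯₃ v) = 0 := by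
  rw [triple_product_permutation, mem_Wc.1 hv, dotProduct_zero]

lemma isCh_Wc (c : V3) : IsCh (Sb (Wc c)) c := by
  intro x _ y hy
  exact cross_Wc hy _

lemma isCh_Wu (c : {c : V3 // c ≠ 0}) : IsCh (Sb (Wu c.1 (uu c))) c.1 := by
  intro x hx y hy
  exact plucker c.1 (uu c) (vv c) x.v y.v (frame c) hx hy

lemma Wc_le (c : {c : V3 // c ≠ 0}) : Sb (Wc c.1) ≤ Sb (Wu c.1 (uu c)) := by
  intro x hx
  exact ((par_iff c.1 (uu c) (vv c) x.v (frame c)).1 hx).1

section prim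
variable (hψ : ψ.IsPrimitive)
include hψ

lemma zz_hz [CharP k 2] (l l' : Lab) : zz ψ l * zz ψ l' = if l = l' then zz ψ l else 0 := by
  have hdiff : ∀ {v v' : V3}, v ≠ v' → ∃ i, v i ≠ v' i := by
    intro v v' h
    by_contra hcon
    push Not at hcon
    exact h (funext hcon)
  rcases l with p | ⟨c, d⟩ <;> rcases l' with p' | ⟨c', d'⟩
  · by_cases h : p = p'
    · subst h
      rw [if_pos rfl]
      exact EE_absorb le_rfl isCh_top
    · rw [if_neg (by simpa using h)]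
      obtain ⟨i, hi⟩ := hdiff h
      refine EE_mul_zero (h := ⟨Pi.single i 1, 0⟩) isCh_top isCh_top trivial trivial ?_
      intro h'
      apply hi
      have := psi_inj hψ h'
      simpa [dotProduct_single] using this
  · rw [if_neg (by simp)]
    obtain ⟨i, hi⟩ := hdiff c'.2
    refine EE_mul_zero (h := ⟨0, Pi.single i 1⟩) isCh_top (isCh_Wc c'.1) trivial
      (Wc c'.1).zero_mem ?_
    intro h'
    apply hi
    have := psi_inj hψ h'
    simpa [dotProduct_single] using this.symm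
  · rw [if_neg (by simp)]
    obtain ⟨i, hi⟩ := hdiff c.2
    refine EE_mul_zero (h := ⟨0, Pi.single i 1⟩) (isCh_Wc c.1) isCh_top
      (Wc c.1).zero_mem trivial ?_
    intro h'
    apply hi
    have := psi_inj hψ h'
    simpa [dotProduct_single] using this
  · by_cases h : c = c'
    · obtain rfl := h
      by_cases h' : d = d'
      · subst h'
        rw [if_pos rfl]
        exact EE_absorb le_rfl (isCh_Wc _)
      · rw [if_neg (by simpa using h')]
        refine EE_mul_zero (h := ⟨c.1, 0⟩) (isCh_Wc c.1) (isCh_Wc c.1)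
          (cross_self _) (cross_self _) ?_
        intro h''
        apply h'
        have := psi_inj hψ h''
        simpa [smul_dotProduct, qq_dot] using this
    · rw [if_neg (by simp [h])]
      obtain ⟨i, hi⟩ := hdiff (fun h' => h (Subtype.ext h') : c.1 ≠ c'.1)
      refine EE_mul_zero (h := ⟨0, Pi.single i 1⟩) (isCh_Wc c.1) (isCh_Wc c'.1)
        (Wc c.1).zero_mem (Wc c'.1).zero_mem ?_
      intro h''
      apply hi
      have := psi_inj hψ h''
      simpa [dotProduct_single] using this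

lemma sum_sub [CharP k 2] (w : V3) : (1 : k) + ∑ c : {c : V3 // c ≠ 0}, ψ (-(c.1 ⬝ᵥ w)) =
    if w = 0 then 1 else 0 := by
  rewrite [← sum_dual hψ]
  have h4 := Finset.add_sum_erase Finset.univ (fun c : V3 => ψ (-(c ⬝ᵥ w)))
    (Finset.mem_univ (0 : V3))
  have h5 : ∑ c ∈ Finset.univ.erase (0 : V3), ψ (-(c ⬝ᵥ w)) =
      ∑ c : {c : V3 // c ≠ 0}, ψ (-(c.1 ⬝ᵥ w)) :=
    Finset.sum_subtype (Finset.univ.erase (0 : V3)) (by simp) _
  have h6 : ψ (-((0 : V3) ⬝ᵥ w)) = 1 := by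
    rewrite [zero_dotProduct, neg_zero]
    exact AddChar.map_zero_eq_one ψ
  rw [← h5, ← h4, h6]

open Classical in
lemma sum_d [CharP k 2] (x : NN) (c : {c : V3 // c ≠ 0}) : ∑ d : ZMod 11,
      (if x ∈ Sb (Wc c.1) then gch ψ c.1 (d • qq c) x else 0) =
      if x.v = 0 then ψ (-(c.1 ⬝ᵥ x.w)) else 0 := by
  by_cases hx : x ∈ Sb (Wc c.1)
  · simp only [if_pos hx]
    have h3 : ∀ d : ZMod 11, gch ψ c.1 (d • qq c) x =
        ψ (-(c.1 ⬝ᵥ x.w)) * ψ (d * (-(qq c ⬝ᵥ x.v))) := by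
      intro d
      rw [gch, ← AddChar.map_add_eq_mul]
      refine congrArg ψ ?_
      rw [smul_dotProduct, smul_eq_mul]
      ring
    simp only [h3]
    rw [← Finset.mul_sum, sum_line hψ]
    by_cases hv : x.v = 0
    · rw [if_pos hv, if_pos (by rw [hv]; simp), mul_one]
    · rw [if_neg hv, if_neg, mul_zero]
      intro h4
      apply hv
      rw [par_eq' c x.v hx, neg_eq_zero.1 h4, zero_smul]
  · simp only [if_neg hx]
    rw [if_neg, Finset.sum_const_zero]
    intro hv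
    apply hx
    rw [mem_Sb, hv]
    exact AddSubgroup.zero_mem _

omit hψ in
open Classical in
lemma zz_coeff_inl (p : V3) (x : NN) : (zz ψ (Sum.inl p)).coeff x = ψ (-(p ⬝ᵥ x.v)) := by
  rw [zz, EE_coeff, if_pos (show x ∈ Sb ⊤ from trivial), gch, zero_dotProduct, zero_add]

open Classical in
lemma sum_inl [CharP k 2] (x : NN) : ∑ p : V3, (zz ψ (Sum.inl p)).coeff x =
    if x.v = 0 then 1 else 0 := by
  rw [Finset.sum_congr rfl fun p _ => zz_coeff_inl (ψ := ψ) p x]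
  exact sum_dual hψ _

open Classical in
lemma sum_inr [CharP k 2] (x : NN) :
    ∑ c : {c : V3 // c ≠ 0}, ∑ d : ZMod 11, (zz ψ (Sum.inr (c, d))).coeff x =
    ∑ c : {c : V3 // c ≠ 0}, if x.v = 0 then ψ (-(c.1 ⬝ᵥ x.w)) else 0 := by
  refine Finset.sum_congr rfl fun c _ => ?_
  rw [← sum_d hψ x c]
  refine Finset.sum_congr rfl fun d _ => ?_
  rw [zz, EE_coeff]

omit hψ in
lemma coeff_univ {ι G : Type} [Fintype ι] (F : ι → MonoidAlgebra k G) (x : G) :
    (∑ l, F l).coeff x = ∑ l, (F l).coeff x := by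
  rw [MonoidAlgebra.coeff_sum, Finsupp.finsetSum_apply]

omit hψ in
lemma zz_sum_coeff (x : NN) : (∑ l, zz ψ l).coeff x =
    ∑ p : V3, (zz ψ (Sum.inl p)).coeff x +
    ∑ c : {c : V3 // c ≠ 0}, ∑ d : ZMod 11, (zz ψ (Sum.inr (c, d))).coeff x :=
  (coeff_univ _ x).trans ((Fintype.sum_sum_type _).trans
    (congrArg (fun t => ∑ p : V3, (zz ψ (Sum.inl p)).coeff x + t) (Fintype.sum_prod_type _)))

omit hψ in
lemma one_coeff (x : NN) (hv : x.v = 0) (hw : x.w = 0) : (1 : MonoidAlgebra k NN).coeff x = 1 := by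
  have h : x = 1 := by
    refine NN.ext ?_ ?_
    · rw [NN.one_v, hv]
    · rw [NN.one_w, hw]
  rw [h, MonoidAlgebra.one_def, MonoidAlgebra.coeff_single, Finsupp.single_eq_same]

omit hψ in
lemma one_coeff' (x : NN) (h : x ≠ 1) : (1 : MonoidAlgebra k NN).coeff x = 0 := by
  rw [MonoidAlgebra.one_def, MonoidAlgebra.coeff_single, Finsupp.single_eq_of_ne h]

lemma zz_sum_aux1 [CharP k 2] (x : NN) (hv : x.v = 0) (hw : x.w = 0) :
    (∑ l, zz ψ l).coeff x = 1 := by
  classical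
  rw [zz_sum_coeff, sum_inl hψ, sum_inr hψ]
  simp only [if_pos hv]
  rw [sum_sub hψ, if_pos hw]

lemma zz_sum_aux2 [CharP k 2] (x : NN) (hv : x.v = 0) (hw : x.w ≠ 0) :
    (∑ l, zz ψ l).coeff x = 0 := by
  classical
  rw [zz_sum_coeff, sum_inl hψ, sum_inr hψ]
  simp only [if_pos hv]
  rw [sum_sub hψ, if_neg hw]

lemma zz_sum_aux3 [CharP k 2] (x : NN) (hv : x.v ≠ 0) :
    (∑ l, zz ψ l).coeff x = 0 := by
  classical
  rw [zz_sum_coeff, sum_inl hψ, sum_inr hψ]
  simp only [if_neg hv]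
  rw [Finset.sum_const_zero, zero_add]

lemma zz_sum [CharP k 2] : ∑ l, zz ψ l = 1 := by
  ext x
  by_cases hv : x.v = 0
  · by_cases hw : x.w = 0
    · rw [zz_sum_aux1 hψ x hv hw, one_coeff x hv hw]
    · rw [zz_sum_aux2 hψ x hv hw, one_coeff' x]
      intro h
      apply hw
      rw [h, NN.one_w]
  · rw [zz_sum_aux3 hψ x hv, one_coeff' x]
    intro h
    apply hv
    rw [h, NN.one_v]

end prim

lemma zz_central (l : Lab) (x : MonoidAlgebra k NN) : zz ψ l * x = x * zz ψ l := by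
  rcases l with p | ⟨c, d⟩
  · exact EE_central _ _ _ (fun v _ v' => zero_dotProduct _) x
  · exact EE_central _ _ _ (fun v hv v' => cross_Wc hv v') x

lemma zz_act (g : SL(3, ZMod 11)) (l : Lab) :
    MonoidAlgebra.mapDomain (actN g) (zz ψ l) = zz ψ (labAct g l) := by
  rcases l with p | ⟨c, d⟩
  · have h0 : stdAct g 0 = 0 := by rw [stdAct_apply, Matrix.mulVec_zero]
    have := EE_act (ψ := ψ) g ⊤ ⊤ 0 p (dualAct g p) (fun v => by simp) (fun v _ => by
      rw [dotProduct_comm, std_dual_dot, dotProduct_comm])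
    rw [h0] at this
    exact this
  · refine EE_act (ψ := ψ) g (Wc c.1) (Wc (stdAct g c.1)) c.1 (d • qq c)
      (d • qq (stdAct0 g c)) ?_ ?_
    · intro v
      rw [mem_Wc, mem_Wc, cross_act]
      constructor
      · intro h
        apply (dualAct g).injective
        rw [h, dualAct_apply, Matrix.mulVec_zero]
      · intro h
        rw [h, dualAct_apply, Matrix.mulVec_zero]
    · intro v hv
      have h1 := par_eq' c v hv
      have h2 : stdAct g v = (qq c ⬝ᵥ v) • (stdAct0 g c).1 := by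
        conv_lhs => rw [h1]
        rw [stdAct_apply, Matrix.mulVec_smul]
        rfl
      rw [h2, smul_dotProduct, dotProduct_smul, qq_dot, smul_dotProduct, smul_eq_mul, smul_eq_mul,
        smul_eq_mul, mul_one]

lemma ff_idem [CharP k 2] (l : Lab) : ff ψ l * ff ψ l = ff ψ l := by
  rcases l with p | ⟨c, d⟩
  · exact EE_absorb le_rfl isCh_top
  · exact EE_absorb le_rfl (isCh_Wu c)

lemma ff_ne (l : Lab) : ff ψ l ≠ 0 := by
  rcases l with p | ⟨c, d⟩
  · exact EE_ne_zero _ _ _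
  · exact EE_ne_zero _ _ _

lemma zz_ff [CharP k 2] (l : Lab) : zz ψ l * ff ψ l = ff ψ l := by
  rcases l with p | ⟨c, d⟩
  · exact EE_absorb le_rfl isCh_top
  · exact EE_absorb (Wc_le c) (isCh_Wu c)

lemma two_ne11 : (2 : ZMod 11) ≠ 0 := by decide

lemma uu_mem (c : {c : V3 // c ≠ 0}) : uu c ∈ Wu c.1 (uu c) := by
  rw [mem_Wu, cross_self, dotProduct_zero]

lemma ff_single [CharP k 2] (hψ : ψ.IsPrimitive) (l : Lab) (n : NN) :
    ∃ r : k, ff ψ l * MonoidAlgebra.single n (1 : k) * ff ψ l = r • ff ψ l := by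
  rcases l with p | ⟨c, d⟩
  · refine ⟨ψ ((0 : V3) ⬝ᵥ n.w + p ⬝ᵥ n.v), ?_⟩
    have h1 : ff ψ (Sum.inl p) * MonoidAlgebra.single n (1 : k) =
        ψ ((0 : V3) ⬝ᵥ n.w + p ⬝ᵥ n.v) • ff ψ (Sum.inl p) :=
      EE_right isCh_top trivial
    rw [h1, smul_mul_assoc, ff_idem]
  · by_cases hn : n.v ∈ Wu c.1 (uu c)
    · refine ⟨ψ (c.1 ⬝ᵥ n.w + (d • qq c) ⬝ᵥ n.v), ?_⟩
      have h1 : ff ψ (Sum.inr (c, d)) * MonoidAlgebra.single n (1 : k) =
          ψ (c.1 ⬝ᵥ n.w + (d • qq c) ⬝ᵥ n.v) • ff ψ (Sum.inr (c, d)) :=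
        EE_right (isCh_Wu c) hn
      rw [h1, smul_mul_assoc, ff_idem]
    · refine ⟨0, ?_⟩
      rw [zero_smul]
      set f := ff ψ (Sum.inr (c, d)) with hf
      let h : NN := ⟨uu c, 0⟩
      have hh : h ∈ Sb (Wu c.1 (uu c)) := uu_mem c
      have hh' : n * h * n⁻¹ ∈ Sb (Wu c.1 (uu c)) := by
        rw [mem_Sb, conj_v]
        exact uu_mem c
      have e1 : MonoidAlgebra.single h (1 : k) * f =
          ψ (c.1 ⬝ᵥ h.w + (d • qq c) ⬝ᵥ h.v) • f := EE_left (isCh_Wu c) hh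
      have e2 : f * MonoidAlgebra.single (n * h * n⁻¹) (1 : k) =
          ψ (c.1 ⬝ᵥ (n * h * n⁻¹).w + (d • qq c) ⬝ᵥ (n * h * n⁻¹).v) • f :=
        EE_right (isCh_Wu c) hh'
      have e3 : f * MonoidAlgebra.single n (1 : k) * (MonoidAlgebra.single h (1 : k) * f) =
          f * MonoidAlgebra.single (n * h * n⁻¹) (1 : k) * (MonoidAlgebra.single n (1 : k) * f) := by
        have e4 : (MonoidAlgebra.single n (1 : k) * MonoidAlgebra.single h (1 : k) :
            MonoidAlgebra k NN) =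
            MonoidAlgebra.single (n * h * n⁻¹) (1 : k) * MonoidAlgebra.single n (1 : k) := by
          rw [MonoidAlgebra.single_mul_single, MonoidAlgebra.single_mul_single,
            inv_mul_cancel_right]
        calc f * MonoidAlgebra.single n (1 : k) * (MonoidAlgebra.single h (1 : k) * f)
            = f * (MonoidAlgebra.single n (1 : k) * MonoidAlgebra.single h (1 : k)) * f := by
              simp only [mul_assoc]
          _ = _ := by rw [e4]; simp only [mul_assoc]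
      rw [e1, e2, mul_smul_comm, smul_mul_assoc, ← mul_assoc] at e3
      rw [← sub_eq_zero, ← sub_smul, smul_eq_zero] at e3
      refine e3.resolve_left ?_
      intro h0
      apply hn
      have h1 := psi_inj hψ (sub_eq_zero.1 h0)
      rw [conj_v, conj_w, dotProduct_add] at h1
      have h2 : c.1 ⬝ᵥ ((2 : ZMod 11) • (n.v ⨯₃ h.v)) = 0 := by
        linear_combination -h1
      rw [dotProduct_smul, smul_eq_mul] at h2
      have : Fact (Nat.Prime 11) := ⟨by norm_num⟩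
      rcases mul_eq_zero.1 h2 with h3 | h3
      · exact absurd h3 two_ne11
      · exact h3

lemma ff_corner [CharP k 2] (hψ : ψ.IsPrimitive) (l : Lab) (x : MonoidAlgebra k NN) :
    ∃ r : k, ff ψ l * x * ff ψ l = r • ff ψ l := by
  induction x using MonoidAlgebra.induction_linear with
  | zero => exact ⟨0, by simp⟩
  | add x y hx hy =>
    obtain ⟨a, ha⟩ := hx
    obtain ⟨b, hb⟩ := hy
    exact ⟨a + b, by rw [mul_add, add_mul, ha, hb, add_smul]⟩
  | single n r =>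
    obtain ⟨a, ha⟩ := ff_single hψ l n
    refine ⟨r * a, ?_⟩
    have h1 : (MonoidAlgebra.single n r : MonoidAlgebra k NN) =
        r • MonoidAlgebra.single n (1 : k) := by
      rw [MonoidAlgebra.smul_single, smul_eq_mul, mul_one]
    rw [h1, mul_smul_comm, smul_mul_assoc, ha, smul_smul]

/-- the transversal -/
noncomputable def nj (c : {c : V3 // c ≠ 0}) (j : ZMod 11) : NN := ⟨j • vv c, 0⟩

lemma zz_gen [CharP k 2] (hψ : ψ.IsPrimitive) (c : {c : V3 // c ≠ 0}) (d : ZMod 11) :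
    zz ψ (Sum.inr (c, d)) = ∑ j : ZMod 11, MonoidAlgebra.single (nj c j) (1 : k) *
      ff ψ (Sum.inr (c, d)) * MonoidAlgebra.single (nj c j)⁻¹ (1 : k) := by
  classical
  have h1 : ∀ j : ZMod 11, MonoidAlgebra.single (nj c j) (1 : k) *
      ff ψ (Sum.inr (c, d)) * MonoidAlgebra.single (nj c j)⁻¹ (1 : k) =
      ∑ y ∈ Finset.univ.filter (· ∈ Sb (Wu c.1 (uu c))),
        MonoidAlgebra.single y (gch ψ c.1 (d • qq c) y *
          ψ (2 * (c.1 ⬝ᵥ ((nj c j).v ⨯₃ y.v)))) := fun j => EE_conj _ _ _ _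
  rw [Finset.sum_congr rfl fun j _ => h1 j, Finset.sum_comm]
  have h2 : ∀ y : NN, ∑ j : ZMod 11, (MonoidAlgebra.single y (gch ψ c.1 (d • qq c) y *
      ψ (2 * (c.1 ⬝ᵥ ((nj c j).v ⨯₃ y.v)))) : MonoidAlgebra k NN) =
      if c.1 ⬝ᵥ (vv c ⨯₃ y.v) = 0 then MonoidAlgebra.single y (gch ψ c.1 (d • qq c) y) else 0 := by
    intro y
    have h3 : ∀ j : ZMod 11, ψ (2 * (c.1 ⬝ᵥ ((nj c j).v ⨯₃ y.v))) =
        ψ (j * (2 * (c.1 ⬝ᵥ (vv c ⨯₃ y.v)))) := by
      intro j
      refine congrArg ψ ?_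
      change 2 * (c.1 ⬝ᵥ ((j • vv c) ⨯₃ y.v)) = _
      rw [map_smul, LinearMap.smul_apply, dotProduct_smul, smul_eq_mul]
      ring
    have h4 : ∑ j : ZMod 11, (MonoidAlgebra.single y (gch ψ c.1 (d • qq c) y *
        ψ (2 * (c.1 ⬝ᵥ ((nj c j).v ⨯₃ y.v)))) : MonoidAlgebra k NN) =
        MonoidAlgebra.single y (∑ j : ZMod 11, gch ψ c.1 (d • qq c) y *
          ψ (2 * (c.1 ⬝ᵥ ((nj c j).v ⨯₃ y.v)))) := by
      have := map_sum (MonoidAlgebra.lsingle (R := k) (M := NN) (S := k) y)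
        (fun j : ZMod 11 => gch ψ c.1 (d • qq c) y *
          ψ (2 * (c.1 ⬝ᵥ ((nj c j).v ⨯₃ y.v)))) Finset.univ
      exact this.symm
    rw [h4, ← Finset.mul_sum, Finset.sum_congr rfl fun j _ => h3 j, sum_line hψ]
    have h5 : (2 * (c.1 ⬝ᵥ (vv c ⨯₃ y.v)) = 0) ↔ (c.1 ⬝ᵥ (vv c ⨯₃ y.v) = 0) := by
      have : Fact (Nat.Prime 11) := ⟨by norm_num⟩
      constructor
      · intro h
        rcases mul_eq_zero.1 h with h3 | h3
        · exact absurd h3 two_ne11
        · exact h3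
      · intro h
        rw [h, mul_zero]
    by_cases h6 : c.1 ⬝ᵥ (vv c ⨯₃ y.v) = 0
    · rw [if_pos h6, if_pos (h5.2 h6), mul_one]
    · rw [if_neg h6, if_neg (fun h => h6 (h5.1 h)), mul_zero, MonoidAlgebra.single_zero]
  rw [Finset.sum_congr rfl fun y _ => h2 y, ← Finset.sum_filter, Finset.filter_filter, zz, EE]
  refine Finset.sum_congr ?_ fun _ _ => rfl
  ext y
  simp only [Finset.mem_filter, Finset.mem_univ, true_and, mem_Sb]
  exact par_iff c.1 (uu c) (vv c) y.v (frame c)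

lemma zz_hgen [CharP k 2] (hψ : ψ.IsPrimitive) (l : Lab) :
    ∃ (n : ℕ) (x y : Fin n → MonoidAlgebra k NN), zz ψ l = ∑ i, x i * ff ψ l * y i := by
  rcases l with p | ⟨c, d⟩
  · refine ⟨1, fun _ => 1, fun _ => 1, ?_⟩
    rw [Fin.sum_univ_one, one_mul, mul_one]
    rfl
  · have e : Fin 11 ≃ ZMod 11 := Equiv.refl _
    refine ⟨11, fun i => MonoidAlgebra.single (nj c (e i)) (1 : k),
      fun i => MonoidAlgebra.single (nj c (e i))⁻¹ (1 : k), ?_⟩
    rw [zz_gen hψ]
    exact (Equiv.sum_comp e (fun j => MonoidAlgebra.single (nj c j) (1 : k) *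
      ff ψ (Sum.inr (c, d)) * MonoidAlgebra.single (nj c j)⁻¹ (1 : k))).symm

end alg

end BLK

/-- the blocks of `k N` and their primitive idempotents -/
theorem BLK {k : Type u} [Field k] [IsAlgClosed k] [CharP k 2] {K : Type} [Group K]
    (ρ : K →* SL(3, ZMod 11)) :
    ∃ z f : Lab → MonoidAlgebra k NN, Blocks (actN.comp ρ) (labAct.comp ρ) z f ∧
      f (Sum.inl 0) = z (Sum.inl 0) ∧
      ∀ x : NN, MonoidAlgebra.single x 1 * f (Sum.inl 0) = f (Sum.inl 0) := by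
  have hk : ((11 : ℕ) : k) ≠ 0 := by
    rw [BLK.odd_cast (by decide)]
    exact one_ne_zero
  have : NeZero ((11 : ℕ) : k) := ⟨hk⟩
  obtain ⟨ζ, hζ⟩ := HasEnoughRootsOfUnity.exists_primitiveRoot k 11
  set ψ : AddChar (ZMod 11) k := AddChar.zmodChar 11 ((IsPrimitiveRoot.iff_def ζ 11).mp hζ).left
  have hψ : ψ.IsPrimitive := AddChar.zmodChar_primitive_of_primitive_root 11 hζ
  refine ⟨BLK.zz ψ, BLK.ff ψ, ?_, rfl, ?_⟩
  · exact
      { hz := BLK.zz_hz hψ
        hz1 := BLK.zz_sum hψ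
        hzc := BLK.zz_central
        hφ := fun g l => BLK.zz_act (ρ g) l
        hf := BLK.ff_idem
        hf0 := BLK.ff_ne
        hzf := BLK.zz_ff
        hf1 := BLK.ff_corner hψ
        hgen := BLK.zz_hgen hψ }
  · intro x
    have h : MonoidAlgebra.single x (1 : k) * BLK.EE ψ (BLK.Sb ⊤) 0 0 =
        ψ ((0 : V3) ⬝ᵥ x.w + (0 : V3) ⬝ᵥ x.v) • BLK.EE ψ (BLK.Sb ⊤) 0 0 :=
      BLK.EE_left BLK.isCh_top trivial
    rw [zero_dotProduct, zero_dotProduct, add_zero, AddChar.map_zero_eq_one, one_smul] at h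
    exact h

end CM
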